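import Pool.Agent.W680.WH.Stm

/-!
# Project WHH (MP_af71ff_an): orthogonalisation
-/

set_option autoImplicit false

open scoped ComplexConjugate InnerProductSpace
open ContinuousLinearMap Filter

namespace Pool.Agent.W589.WH

section abstract

variable {H K : Type} [NormedAddCommGroup H] [InnerProductSpace ℂ H] [CompleteSpace H]
  [NormedAddCommGroup K] [InnerProductSpace ℂ K] [CompleteSpace K]

lemma adj_mul (A B : H →L[ℂ] H) : adjoint (A * B) = adjoint B * adjoint A := adjoint_comp A B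

lemma adj_one : adjoint (1 : H →L[ℂ] H) = 1 := star_one (H →L[ℂ] H)

theorem core (i1 i2 : H →L[ℂ] K) (hn : ∀ f, ‖i1 f‖ = ‖f‖) (S : (K →L[ℂ] K)ˣ) :
    ∃ (P B : H →L[ℂ] H) (m : ℝ), 0 < m ∧ adjoint P = P ∧
    (∀ f, m * ‖f‖ ^ 2 ≤ (⟪f, P f⟫_ℂ).re) ∧
    ∀ (U C : K →L[ℂ] K) (W : (H →L[ℂ] H)ˣ) (C12 C2 : H →L[ℂ] H),
      adjoint U * U = 1 → C ∘L i1 = i1 ∘L (W : H →L[ℂ] H) → C ∘L i2 = i1 ∘L C12 + i2 ∘L C2 →
      (S : K →L[ℂ] K) * C = U * (S : K →L[ℂ] K) →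
      adjoint (W : H →L[ℂ] H) * P * (W : H →L[ℂ] H) = P ∧
        C12 = B * C2 - (W : H →L[ℂ] H) * B := by
  set N : K →L[ℂ] K := adjoint (S : K →L[ℂ] K) * (S : K →L[ℂ] K) with hN
  set P : H →L[ℂ] H := adjoint i1 ∘L (N ∘L i1) with hP
  set Q12 : H →L[ℂ] H := adjoint i1 ∘L (N ∘L i2) with hQ12
  have hNs : adjoint N = N := by
    rw [hN, adj_mul, adjoint_adjoint]
  have hPs : adjoint P = P := by
    rw [hP, adjoint_comp, adjoint_comp, hNs, adjoint_adjoint, ContinuousLinearMap.comp_assoc]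
  have hPf : ∀ f, ⟪f, P f⟫_ℂ = ((‖(S : K →L[ℂ] K) (i1 f)‖ ^ 2 : ℝ) : ℂ) := by
    intro f
    have h1 : P f = adjoint i1 (adjoint (S : K →L[ℂ] K) ((S : K →L[ℂ] K) (i1 f))) := rfl
    rw [h1, adjoint_inner_right, adjoint_inner_right, inner_self_eq_norm_sq_to_K]
    norm_cast
  set k : ℝ := ‖((S⁻¹ : (K →L[ℂ] K)ˣ) : K →L[ℂ] K)‖ ^ 2 + 1 with hk
  have hk0 : 0 < k := by positivity
  have hbd : ∀ f : H, ‖f‖ ^ 2 ≤ k * ‖(S : K →L[ℂ] K) (i1 f)‖ ^ 2 := by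
    intro f
    have h1 : ((S⁻¹ : (K →L[ℂ] K)ˣ) : K →L[ℂ] K) ((S : K →L[ℂ] K) (i1 f)) = i1 f := by
      have h2 : ((S⁻¹ : (K →L[ℂ] K)ˣ) : K →L[ℂ] K) * (S : K →L[ℂ] K) = 1 := S.inv_mul
      have h3 := congrArg (fun T : K →L[ℂ] K => T (i1 f)) h2
      exact h3
    have h2 : ‖f‖ ≤ ‖((S⁻¹ : (K →L[ℂ] K)ˣ) : K →L[ℂ] K)‖ * ‖(S : K →L[ℂ] K) (i1 f)‖ := by
      rw [← hn f]
      conv_lhs => rw [← h1]
      exact le_opNorm _ _
    calc ‖f‖ ^ 2 ≤ (‖((S⁻¹ : (K →L[ℂ] K)ˣ) : K →L[ℂ] K)‖ *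
          ‖(S : K →L[ℂ] K) (i1 f)‖) ^ 2 := by gcongr
      _ = ‖((S⁻¹ : (K →L[ℂ] K)ˣ) : K →L[ℂ] K)‖ ^ 2 * ‖(S : K →L[ℂ] K) (i1 f)‖ ^ 2 := by ring
      _ ≤ k * ‖(S : K →L[ℂ] K) (i1 f)‖ ^ 2 := by
          gcongr
          rw [hk]; linarith
  have hlow : ∀ f, k⁻¹ * ‖f‖ ^ 2 ≤ (⟪f, P f⟫_ℂ).re := by
    intro f
    rw [hPf, Complex.ofReal_re]
    rw [inv_mul_le_iff₀ hk0]
    exact hbd f
  have hu : IsUnit P := by
    have hc : (0 : NNReal) < k.toNNReal⁻¹ := by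
      rw [inv_pos]; exact Real.toNNReal_pos.2 hk0
    refine ContinuousLinearMap.isUnit_of_forall_le_norm_inner_map P hc fun f => ?_
    have h1 : ((k.toNNReal⁻¹ : NNReal) : ℝ) = k⁻¹ := by
      rw [NNReal.coe_inv, Real.coe_toNNReal _ hk0.le]
    rw [h1, mul_comm]
    refine (hlow f).trans ?_
    rw [← inner_conj_symm]
    refine (Complex.re_le_norm _).trans (le_of_eq ?_)
    exact RCLike.norm_conj _
  obtain ⟨p, hp⟩ := hu
  have hpi : ((p⁻¹ : (H →L[ℂ] H)ˣ) : H →L[ℂ] H) * P = 1 := by rw [← hp]; exact p.inv_mul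
  refine ⟨P, -(((p⁻¹ : (H →L[ℂ] H)ˣ) : H →L[ℂ] H) * Q12), k⁻¹, inv_pos.2 hk0, hPs, hlow, ?_⟩
  set B : H →L[ℂ] H := -(((p⁻¹ : (H →L[ℂ] H)ˣ) : H →L[ℂ] H) * Q12) with hB
  intro U C W C12 C2 hU hCi1 hCi2 hSC
  have hNC : adjoint C ∘L (N ∘L C) = N := by
    have h1 : adjoint C ∘L (N ∘L C) =
        adjoint ((S : K →L[ℂ] K) * C) * ((S : K →L[ℂ] K) * C) := by
      rw [adj_mul]
      rfl
    rw [h1, hSC, adj_mul]
    have h2 : adjoint (S : K →L[ℂ] K) * adjoint U * (U * (S : K →L[ℂ] K)) =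
        adjoint (S : K →L[ℂ] K) * (adjoint U * U) * (S : K →L[ℂ] K) := by
      simp only [mul_assoc]
    rw [h2, hU, mul_one]
  have hkey : ∀ j : H →L[ℂ] K, adjoint i1 ∘L (N ∘L j) =
      adjoint (W : H →L[ℂ] H) ∘L (adjoint i1 ∘L (N ∘L (C ∘L j))) := by
    intro j
    conv_lhs => rw [← hNC]
    have h1 : adjoint i1 ∘L ((adjoint C ∘L (N ∘L C)) ∘L j) =
        (adjoint i1 ∘L adjoint C) ∘L (N ∘L (C ∘L j)) := rfl
    rw [h1, ← adjoint_comp, hCi1, adjoint_comp]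
    rfl
  have hP1 : P = adjoint (W : H →L[ℂ] H) * (P * (W : H →L[ℂ] H)) := by
    have h5 := hkey i1
    rw [hCi1] at h5
    exact h5
  refine ⟨by rw [mul_assoc]; exact hP1.symm, ?_⟩
  have h1 := hkey i2
  rw [hCi2] at h1
  have h2 : adjoint i1 ∘L (N ∘L (i1 ∘L C12 + i2 ∘L C2)) = P * C12 + Q12 * C2 := by
    refine ContinuousLinearMap.ext fun f => ?_
    show adjoint i1 (N (i1 (C12 f) + i2 (C2 f))) =
      adjoint i1 (N (i1 (C12 f))) + adjoint i1 (N (i2 (C2 f)))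
    rw [map_add, map_add]
  rw [h2] at h1
  have h3 : Q12 = adjoint (W : H →L[ℂ] H) * (P * C12 + Q12 * C2) := h1
  have hPB : P * B = - Q12 := by
    have h6 : P * ((p⁻¹ : (H →L[ℂ] H)ˣ) : H →L[ℂ] H) = 1 := by rw [← hp]; exact p.mul_inv
    rw [hB, mul_neg, ← mul_assoc, h6, one_mul]
  have h7 : adjoint (W : H →L[ℂ] H) * (P * ((W : H →L[ℂ] H) * B + C12) + Q12 * C2) = 0 := by
    have h8 : adjoint (W : H →L[ℂ] H) * (P * ((W : H →L[ℂ] H) * B + C12) + Q12 * C2) =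
        (adjoint (W : H →L[ℂ] H) * (P * (W : H →L[ℂ] H))) * B +
          adjoint (W : H →L[ℂ] H) * (P * C12 + Q12 * C2) := by noncomm_ring
    rw [h8, ← hP1, ← h3, hPB, neg_add_cancel]
  have hWi : adjoint ((W⁻¹ : (H →L[ℂ] H)ˣ) : H →L[ℂ] H) * adjoint (W : H →L[ℂ] H) = 1 := by
    have h9 : (W : H →L[ℂ] H) * ((W⁻¹ : (H →L[ℂ] H)ˣ) : H →L[ℂ] H) = 1 := W.mul_inv
    rw [← adj_mul, h9]
    exact adj_one
  have h10 : P * ((W : H →L[ℂ] H) * B + C12) + Q12 * C2 = 0 := by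
    have h11 : adjoint ((W⁻¹ : (H →L[ℂ] H)ˣ) : H →L[ℂ] H) *
        (adjoint (W : H →L[ℂ] H) * (P * ((W : H →L[ℂ] H) * B + C12) + Q12 * C2)) = 0 := by
      rw [h7, mul_zero]
    rwa [← mul_assoc, hWi, one_mul] at h11
  have h12 : (W : H →L[ℂ] H) * B + C12 = B * C2 := by
    have h13 : P * ((W : H →L[ℂ] H) * B + C12) = P * (B * C2) := by
      rw [← mul_assoc P B C2, hPB, neg_mul]
      exact eq_neg_of_add_eq_zero_left h10
    have h14 : ((p⁻¹ : (H →L[ℂ] H)ˣ) : H →L[ℂ] H) * (P * ((W : H →L[ℂ] H) * B + C12)) =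
        ((p⁻¹ : (H →L[ℂ] H)ˣ) : H →L[ℂ] H) * (P * (B * C2)) := by rw [h13]
    rwa [← mul_assoc, ← mul_assoc, hpi, one_mul, one_mul] at h14
  rw [← h12]
  abel

end abstract

open Pool.Agent.W680.WH

/-- inclusion of the first summand -/
noncomputable def i1 : E →L[ℂ] E2 :=
  (WithLp.prodContinuousLinearEquiv 2 ℂ E E).symm.toContinuousLinearMap ∘L
    ContinuousLinearMap.inl ℂ E E

/-- inclusion of the second summand -/
noncomputable def i2 : E →L[ℂ] E2 :=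
  (WithLp.prodContinuousLinearEquiv 2 ℂ E E).symm.toContinuousLinearMap ∘L
    ContinuousLinearMap.inr ℂ E E

lemma i1_fst (f : E) : (i1 f).fst = f := rfl
lemma i1_snd (f : E) : (i1 f).snd = 0 := rfl
lemma i2_fst (f : E) : (i2 f).fst = 0 := rfl
lemma i2_snd (f : E) : (i2 f).snd = f := rfl

lemma E2ext {x y : E2} (h1 : x.fst = y.fst) (h2 : x.snd = y.snd) : x = y :=
  WithLp.ofLp_injective 2 (Prod.ext h1 h2)

lemma norm_i1 (f : E) : ‖i1 f‖ = ‖f‖ := by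
  have h : ‖i1 f‖ ^ 2 = ‖f‖ ^ 2 := by
    rw [WithLp.prod_norm_sq_eq_of_L2, i1_fst, i1_snd, norm_zero]
    ring
  exact (sq_eq_sq₀ (norm_nonneg _) (norm_nonneg _)).1 h

lemma blk_i1 (A B D : E →L[ℂ] E) : blk A B D ∘L i1 = i1 ∘L A := by
  refine ContinuousLinearMap.ext fun f => E2ext ?_ ?_
  · show (blk A B D (i1 f)).fst = (i1 (A f)).fst
    rw [blk_fst, i1_fst, i1_snd, i1_fst, map_zero, add_zero]
  · show (blk A B D (i1 f)).snd = (i1 (A f)).snd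
    rw [blk_snd, i1_snd, i1_snd, map_zero]

lemma blk_i2 (A B D : E →L[ℂ] E) : blk A B D ∘L i2 = i1 ∘L B + i2 ∘L D := by
  refine ContinuousLinearMap.ext fun f => E2ext ?_ ?_
  · show (blk A B D (i2 f)).fst = (i1 (B f)).fst + (i2 (D f)).fst
    rw [blk_fst, i2_fst, i2_snd, i1_fst, i2_fst, map_zero, zero_add, add_zero]
  · show (blk A B D (i2 f)).snd = (i1 (B f)).snd + (i2 (D f)).snd
    rw [blk_snd, i2_snd, i1_snd, i2_snd, zero_add]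

theorem ort : S_ORT := by
  intro S
  obtain ⟨P, B, m, hm, hPs, hlow, h⟩ := core i1 i2 norm_i1 S
  exact ⟨P, B, m, hm, hPs, hlow, fun U W C12 C2 hU _ hSC =>
    h U (blk (W : E →L[ℂ] E) C12 C2) W C12 C2 hU (blk_i1 _ _ _) (blk_i2 _ _ _) hSC⟩

end Pool.Agent.W589.WH
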